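import Mathlib
import Pool.Agent.X21.Jet.J2

set_option autoImplicit false

open MvPolynomial Pool.Agent.X21.Jet

/-- `C` is a clutter: its members are nonempty and none contains another. -/
def Pool.Agent.Results.MP_dc74b6_ag.TriangleEmbedded.IsClutter {σ : Type} (C : Set (Finset σ)) :
    Prop :=
  (∀ e ∈ C, e.Nonempty) ∧ ∀ e ∈ C, ∀ e' ∈ C, e ⊆ e' → e = e'

/-- `J` has an embedded component: some associated prime `P` of `J` is not minimal over `J`.
`P` is a prime of the form `(J : g)`; we also state that it is in Mathlib's set of associated primes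
of the quotient by `J`. -/
def Pool.Agent.Results.MP_dc74b6_ag.TriangleEmbedded.HasEmbedded {R : Type} [CommRing R]
    (J : Ideal R) : Prop :=
  ∃ P : Ideal R, P.IsPrime ∧ (∃ g, ∀ a, a ∈ P ↔ a * g ∈ J) ∧
    P ∈ associatedPrimes R (R ⧸ J) ∧ P ∉ J.minimalPrimes

open Pool.Agent.Results.MP_dc74b6_ag.TriangleEmbedded

theorem Pool.Agent.Results.MP_dc74b6_ag.TriangleEmbedded.result (k : Type) [Field k] :
    IsClutter triangle ∧
      ((2 : k) ≠ 0 → HasEmbedded (jetIdeal 1 (edgeIdeal k triangle))) ∧
      ((3 : k) ≠ 0 → HasEmbedded (jetIdeal 2 (edgeIdeal k triangle))) ∧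
      ∃ (C : Set (Finset (Fin 3))) (s : ℕ), IsClutter C ∧
        HasEmbedded (jetIdeal s (edgeIdeal k C)) := by
  have hC : IsClutter triangle := by
    constructor
    · intro e he
      rw [← Finset.card_pos, show e.card = 2 from he]
      norm_num
    · intro e he e' he' h
      exact Finset.eq_of_subset_of_card_le h
        (by rw [show e.card = 2 from he, show e'.card = 2 from he'])
  refine ⟨hC, fun h => triangle_one h, fun h => triangle_two h, ?_⟩
  by_cases h2 : (2 : k) = 0
  · refine ⟨triangle, 2, hC, triangle_two ?_⟩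
    intro h3
    apply one_ne_zero (α := k)
    have : (1 : k) = 3 - 2 := by norm_num
    rw [this, h3, h2, sub_zero]
  · exact ⟨triangle, 1, hC, triangle_one h2⟩
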